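import Pool.Agent.R135.SEPCex

/-!
# MP_ca000f_co, Q1: a 2-connected graph with `Z_G(t) = 38t + 508t² + 668t³ - 12t⁴`

The graph has the nine vertices `0, …, 8` and the nineteen edges
`01 02 12 03 13 23 45 46 56 07 17 47 57 67 28 38 48 58 68`: a `K_4` on `{0,1,2,3}` and a `K_5`
minus the edge `78` on `{4,5,6,7,8}`, with `7` joined to `0, 1` and `8` joined to `2, 3`.
So the answer to Q1 is negative.

Proof. The palindromicity of `h^*_{P_H}` is proved for every connected `H` (by a unimodular
triangulation and two opposite half-open decompositions), so that `h^*` is determined by the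
numbers of lattice points of `mP_H`, `m ≤ 4`. These are computed by the kernel for `H = G` and for
one edge deletion in each orbit of the automorphism group: the lattice points of `mP_H` are the
sums of at most `m` vectors `e_a - e_b`, and a set of lattice points is encoded as one natural
number, on which translations are bit shifts.
-/

set_option autoImplicit false
open Finset

namespace Pool.Agent.Results.MP_ca000f_co.NegativeCoefficient

open Pool.Agent.R135.SEP

/-- **Q1 of MP_ca000f_co is false**: there is a `2`-connected graph `G` on nine vertices with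
`Z_G(t) = 38t + 508t² + 668t³ - 12t⁴`. Here `γ` is the `γ`-vector of `P_G` and `γ' e` is the
`γ`-vector of `P_{G ∖ e}`. -/
theorem result : ∃ (G : SimpleGraph (Fin 9)) (_ : DecidableRel G.Adj), TwoConnected G ∧
    ∃ (γ : ℕ → ℤ) (γ' : Sym2 (Fin 9) → ℕ → ℤ),
      IsGammaVector 8 (hStar 8 (edgePolytope G)) γ ∧
      (∀ e ∈ G.edgeSet, IsGammaVector 8 (hStar 8 (edgePolytope (G.deleteEdges {e}))) (γ' e)) ∧
      ∑ e ∈ G.edgeFinset, (γ 0 - γ' e 0) = 0 ∧
      ∑ e ∈ G.edgeFinset, (γ 1 - γ' e 1) = 38 ∧
      ∑ e ∈ G.edgeFinset, (γ 2 - γ' e 2) = 508 ∧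
      ∑ e ∈ G.edgeFinset, (γ 3 - γ' e 3) = 668 ∧
      ∑ e ∈ G.edgeFinset, (γ 4 - γ' e 4) = -12 :=
  ⟨cex, inferInstance, cex_two, gam 39 639 5715 33595, gamE, cex_gamma, cex_edges, cex_sum⟩

end Pool.Agent.Results.MP_ca000f_co.NegativeCoefficient
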